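import Mathlib

/-!
Induced-metric-based embeddings of diversities into `ℓ_1`: every rule has distortion at least
`⌊n/2⌋ - 1` on some `n`-point diversity, so no rule achieves `C √n`.
-/

set_option linter.unusedSectionVars false

namespace Pool.Agent.Results.MP_00e3a8_gt.Main

open Finset

/-- `δ` is a diversity on `X`. -/
structure IsDiversity {X : Type*} [DecidableEq X] (δ : Finset X → ℝ) : Prop where
  nonneg : ∀ A, 0 ≤ δ A
  eq_zero_iff : ∀ A, δ A = 0 ↔ A.card ≤ 1
  triangle : ∀ A B C, C.Nonempty → δ (A ∪ B) ≤ δ (A ∪ C) + δ (B ∪ C)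

/-- The induced metric of a diversity. -/
def inducedMetric {X : Type*} [DecidableEq X] (δ : Finset X → ℝ) (x y : X) : ℝ := δ {x, y}

/-- The `ℓ_1` diversity on `ℝ^k`: the sum over the coordinates of the maximal coordinate
difference (the supremum of the empty set being `0`). -/
noncomputable def l1Diversity {k : ℕ} (A : Finset (Fin k → ℝ)) : ℝ :=
  ∑ i, sSup {t : ℝ | ∃ a ∈ A, ∃ b ∈ A, t = |a i - b i|}

/-- An induced-metric-based embedding rule: to every finite set `X` with a distance function `d`
it assigns a dimension and a map from `X` to `ℝ^k`. -/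
structure EmbeddingRule where
  dim : ∀ (X : Type) [Fintype X], (X → X → ℝ) → ℕ
  map : ∀ (X : Type) [Fintype X] (d : X → X → ℝ), X → (Fin (dim X d) → ℝ)

/-- The map `φ` from the diversity `(X, δ)` to `(ℝ^k, ℓ_1 diversity)` has distortion `c`. -/
def HasDistortion {X : Type*} [DecidableEq X] {k : ℕ} (δ : Finset X → ℝ) (φ : X → (Fin k → ℝ))
    (c : ℝ) : Prop :=
  ∃ c₁ c₂ : ℝ, 0 < c₁ ∧ 0 < c₂ ∧ c = c₁ * c₂ ∧
    ∀ A : Finset X, 1 / c₁ * δ A ≤ l1Diversity (A.image φ) ∧
      l1Diversity (A.image φ) ≤ c₂ * δ A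

section

variable {X : Type*} [DecidableEq X]

/-- the discrete diversity -/
noncomputable def disc (S : Finset X) : ℝ := if S.card ≤ 1 then 0 else 1

/-- the collapse map -/
def col (K : Finset X) (x : X) : Option X := if x ∈ K then none else some x

/-- number of points of the image in the quotient, minus one -/
noncomputable def cnt (K S : Finset X) : ℝ := ((S.image (col K)).card : ℝ) - 1

/-- the diversity -/
noncomputable def dv (K S : Finset X) : ℝ := max (disc S) (cnt K S)

theorem disc_nonneg (S : Finset X) : 0 ≤ disc S := by unfold disc; split_ifs <;> norm_num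

theorem disc_tri (A B C : Finset X) (hC : C.Nonempty) :
    disc (A ∪ B) ≤ disc (A ∪ C) + disc (B ∪ C) := by
  by_cases h1 : (A ∪ B).card ≤ 1
  · have h := disc_nonneg (A ∪ C)
    have h' := disc_nonneg (B ∪ C)
    have h'' : disc (A ∪ B) = 0 := by unfold disc; rw [if_pos h1]
    linarith
  have h1' : disc (A ∪ B) = 1 := by unfold disc; rw [if_neg h1]
  by_cases h2 : (A ∪ C).card ≤ 1
  swap
  · have h' := disc_nonneg (B ∪ C)
    have h'' : disc (A ∪ C) = 1 := by unfold disc; rw [if_neg h2]
    linarith
  by_cases h3 : (B ∪ C).card ≤ 1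
  swap
  · have h' := disc_nonneg (A ∪ C)
    have h'' : disc (B ∪ C) = 1 := by unfold disc; rw [if_neg h3]
    linarith
  -- A ∪ C and B ∪ C have at most one point, so A ∪ B too
  exfalso
  apply h1
  obtain ⟨c, hc⟩ := hC
  rw [Finset.card_le_one] at *
  have hA : ∀ a ∈ A, a = c := fun a ha => h2 a (mem_union_left _ ha) c (mem_union_right _ hc)
  have hB : ∀ a ∈ B, a = c := fun a ha => h3 a (mem_union_left _ ha) c (mem_union_right _ hc)
  intro a ha b hb
  rw [mem_union] at ha hb
  have h4 : a = c := ha.elim (hA a) (hB a)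
  have h5 : b = c := hb.elim (hA b) (hB b)
  rw [h4, h5]

theorem cnt_tri (K A B C : Finset X) (hC : C.Nonempty) :
    cnt K (A ∪ B) ≤ cnt K (A ∪ C) + cnt K (B ∪ C) := by
  unfold cnt
  set f := col K
  have h1 : ((A ∪ C).image f ∪ (B ∪ C).image f).card + ((A ∪ C).image f ∩ (B ∪ C).image f).card =
      ((A ∪ C).image f).card + ((B ∪ C).image f).card := card_union_add_card_inter _ _
  have h2 : ((A ∪ B).image f).card ≤ ((A ∪ C).image f ∪ (B ∪ C).image f).card := by
    apply card_le_card
    intro x hx
    simp only [mem_image, mem_union] at *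
    obtain ⟨a, ha, rfl⟩ := hx
    rcases ha with ha | ha
    · exact Or.inl ⟨a, Or.inl ha, rfl⟩
    · exact Or.inr ⟨a, Or.inl ha, rfl⟩
  have h3 : 1 ≤ ((A ∪ C).image f ∩ (B ∪ C).image f).card := by
    obtain ⟨c, hc⟩ := hC
    apply card_pos.mpr
    refine ⟨f c, ?_⟩
    rw [mem_inter]
    exact ⟨mem_image_of_mem f (mem_union_right _ hc), mem_image_of_mem f (mem_union_right _ hc)⟩
  have h4 : ((A ∪ B).image f).card + 1 ≤ ((A ∪ C).image f).card + ((B ∪ C).image f).card := by
    omega
  have h5 : (((A ∪ B).image f).card : ℝ) + 1 ≤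
      (((A ∪ C).image f).card : ℝ) + (((B ∪ C).image f).card : ℝ) := by exact_mod_cast h4
  linarith

theorem dv_isDiversity (K : Finset X) : IsDiversity (dv K) := by
  refine ⟨fun A => le_max_of_le_left (disc_nonneg A), ?_, ?_⟩
  · intro A
    constructor
    · intro h
      by_contra hc
      have : disc A = 1 := by unfold disc; rw [if_neg hc]
      have h2 : disc A ≤ dv K A := le_max_left _ _
      linarith
    · intro h
      have h1 : disc A = 0 := by unfold disc; rw [if_pos h]
      have h2 : cnt K A ≤ 0 := by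
        unfold cnt
        have : (A.image (col K)).card ≤ 1 := card_image_le.trans h
        have : ((A.image (col K)).card : ℝ) ≤ 1 := by exact_mod_cast this
        linarith
      unfold dv
      rw [h1, max_eq_left h2]
  · intro A B C hC
    unfold dv
    apply max_le
    · exact (disc_tri A B C hC).trans (add_le_add (le_max_left _ _) (le_max_left _ _))
    · exact (cnt_tri K A B C hC).trans (add_le_add (le_max_right _ _) (le_max_right _ _))

theorem dv_pair (K : Finset X) (x y : X) : dv K {x, y} = if x = y then 0 else 1 := by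
  by_cases h : x = y
  · subst h
    rw [if_pos rfl, (dv_isDiversity K).eq_zero_iff]
    simp
  · rw [if_neg h]
    have h1 : ({x, y} : Finset X).card = 2 := card_pair h
    unfold dv disc cnt
    have h2 : ((({x, y} : Finset X).image (col K)).card : ℝ) ≤ 2 := by
      have := card_image_le (s := ({x, y} : Finset X)) (f := col K)
      rw [h1] at this
      exact_mod_cast this
    rw [h1, if_neg (by norm_num)]
    apply max_eq_left
    linarith

theorem dv_self (K : Finset X) (hK : 2 ≤ K.card) : dv K K = 1 := by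
  unfold dv disc cnt
  have h1 : K.image (col K) = {none} := by
    ext x
    simp only [mem_image, mem_singleton]
    constructor
    · rintro ⟨a, ha, rfl⟩; unfold col; rw [if_pos ha]
    · rintro rfl
      obtain ⟨a, ha⟩ : K.Nonempty := card_pos.mp (by omega)
      exact ⟨a, ha, by unfold col; rw [if_pos ha]⟩
  rw [h1, if_neg (by omega)]
  norm_num

theorem dv_disjoint (K L : Finset X) (h : Disjoint L K) (hL : 2 ≤ L.card) :
    dv K L = (L.card : ℝ) - 1 := by
  unfold dv disc cnt
  have h1 : (L.image (col K)).card = L.card := by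
    apply card_image_of_injOn
    intro a ha b hb hab
    have ha' : a ∉ K := disjoint_left.mp h ha
    have hb' : b ∉ K := disjoint_left.mp h hb
    unfold col at hab
    rw [if_neg ha', if_neg hb'] at hab
    exact Option.some_injective _ hab
  rw [h1, if_neg (by omega)]
  apply max_eq_right
  have : (2 : ℝ) ≤ L.card := by exact_mod_cast hL
  linarith

/-- The key estimate. -/
theorem key {k : ℕ} (φ : X → (Fin k → ℝ)) (K L : Finset X) (hKL : Disjoint L K)
    (hK : 2 ≤ K.card) (hL : 2 ≤ L.card)
    (hle : l1Diversity (L.image φ) ≤ l1Diversity (K.image φ)) {c : ℝ}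
    (hc : HasDistortion (dv K) φ c) : (L.card : ℝ) - 1 ≤ c := by
  obtain ⟨c₁, c₂, h1, h2, rfl, h⟩ := hc
  have h3 := (h L).1
  have h4 := (h K).2
  rw [dv_disjoint K L hKL hL] at h3
  rw [dv_self K hK] at h4
  have h5 : 1 / c₁ * ((L.card : ℝ) - 1) ≤ c₂ := by linarith
  have h6 : c₁ * (1 / c₁ * ((L.card : ℝ) - 1)) ≤ c₁ * c₂ := mul_le_mul_of_nonneg_left h5 h1.le
  have h7 : c₁ * (1 / c₁ * ((L.card : ℝ) - 1)) = (L.card : ℝ) - 1 := by field_simp
  rwa [h7] at h6

end

/-- For every induced-metric-based rule and every `m ≥ 2` there is a diversity on `2m` points (with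
the discrete induced metric) on which the rule has distortion at least `m - 1`. -/
theorem lower (Φ : EmbeddingRule) (m : ℕ) (hm : 2 ≤ m) (r : ℕ) :
    ∃ δ : Finset (Fin (2 * m + r)) → ℝ, IsDiversity δ ∧
      ∀ c, HasDistortion δ (Φ.map (Fin (2 * m + r)) (inducedMetric δ)) c → (m : ℝ) - 1 ≤ c := by
  set X := Fin (2 * m + r)
  let A : Finset X := (univ : Finset X).filter (fun i => (i : ℕ) < m)
  let B : Finset X := (univ : Finset X).filter (fun i => m ≤ (i : ℕ) ∧ (i : ℕ) < 2 * m)
  have hA : A.card = m := by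
    have : A = (univ : Finset (Fin m)).image
        (fun j : Fin m => (⟨(j : ℕ), by have := j.2; omega⟩ : X)) := by
      ext i
      simp only [A, mem_filter, mem_univ, true_and, mem_image]
      constructor
      · intro h; exact ⟨⟨i, h⟩, Fin.ext rfl⟩
      · rintro ⟨j, rfl⟩; exact j.2
    rw [this, card_image_of_injective, card_univ, Fintype.card_fin]
    intro a b hab
    have hab' := congrArg Fin.val hab
    simp only at hab'
    exact Fin.ext hab'
  have hB : B.card = m := by
    have : B = (univ : Finset (Fin m)).image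
        (fun j : Fin m => (⟨m + (j : ℕ), by have := j.2; omega⟩ : X)) := by
      ext i
      simp only [B, mem_filter, mem_univ, true_and, mem_image]
      constructor
      · rintro ⟨h, h'⟩
        exact ⟨⟨(i : ℕ) - m, by omega⟩, Fin.ext (by simp; omega)⟩
      · rintro ⟨j, rfl⟩; exact ⟨by simp, by have := j.2; simp; omega⟩
    rw [this, card_image_of_injective, card_univ, Fintype.card_fin]
    intro a b hab
    have hab' := congrArg Fin.val hab
    simp only at hab'
    exact Fin.ext (by omega)
  have hAB : Disjoint A B := by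
    rw [disjoint_left]
    intro i hi hi'
    simp only [A, B, mem_filter, mem_univ, true_and] at hi hi'
    omega
  have hind : ∀ K : Finset X, inducedMetric (dv K) = fun x y => if x = y then 0 else 1 := by
    intro K; funext x y; exact dv_pair K x y
  set φ := Φ.map X (fun x y => if x = y then 0 else 1) with hφ
  rcases le_total (l1Diversity (B.image φ)) (l1Diversity (A.image φ)) with h | h
  · refine ⟨dv A, dv_isDiversity A, ?_⟩
    rw [hind A]
    intro c hc
    have := key φ A B hAB.symm (by omega) (by omega) h hc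
    rw [hB] at this
    exact this
  · refine ⟨dv B, dv_isDiversity B, ?_⟩
    rw [hind B]
    intro c hc
    have := key φ B A hAB (by omega) (by omega) h hc
    rw [hA] at this
    exact this

/-- For every induced-metric-based embedding rule: (1) for every `n ≥ 4` there is an `n`-point
diversity on which the distortion of the rule is at least `⌊n/2⌋ - 1`; (2) hence for no constant
`C` is the distortion at most `C √n` for every `n ≥ 2` and every `n`-point diversity. -/
theorem result (Φ : EmbeddingRule) :
    (∀ n : ℕ, 4 ≤ n → ∃ δ : Finset (Fin n) → ℝ, IsDiversity δ ∧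
      ∀ c, HasDistortion δ (Φ.map (Fin n) (inducedMetric δ)) c → ((n / 2 : ℕ) : ℝ) - 1 ≤ c) ∧
    ¬ ∃ C : ℝ, ∀ n : ℕ, 2 ≤ n → ∀ δ : Finset (Fin n) → ℝ, IsDiversity δ →
      ∃ c, c ≤ C * Real.sqrt n ∧ HasDistortion δ (Φ.map (Fin n) (inducedMetric δ)) c := by
  have h1 : ∀ n : ℕ, 4 ≤ n → ∃ δ : Finset (Fin n) → ℝ, IsDiversity δ ∧
      ∀ c, HasDistortion δ (Φ.map (Fin n) (inducedMetric δ)) c → ((n / 2 : ℕ) : ℝ) - 1 ≤ c := by
    intro n hn
    have h := lower Φ (n / 2) (by omega) (n % 2)
    rw [show 2 * (n / 2) + n % 2 = n by omega] at h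
    exact h
  refine ⟨h1, ?_⟩
  rintro ⟨C, hC⟩
  obtain ⟨k, hk⟩ := exists_nat_gt (max C 0)
  have hk0 : (0 : ℝ) < k := lt_of_le_of_lt (le_max_right _ _) hk
  have hkC : C < k := lt_of_le_of_lt (le_max_left _ _) hk
  have hk1 : 1 ≤ k := by
    have : 0 < k := by exact_mod_cast hk0
    omega
  -- n = (4k)^2
  set n : ℕ := (4 * k) * (4 * k) with hn
  have hn16 : 16 ≤ n := by nlinarith
  obtain ⟨δ, hδ, hlow⟩ := h1 n (by omega)
  obtain ⟨c, hc1, hc2⟩ := hC n (by omega) δ hδ
  have h2 := hlow c hc2
  have h3 : Real.sqrt (n : ℝ) = 4 * k := by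
    rw [hn]; push_cast
    rw [Real.sqrt_mul_self (by positivity)]
  rw [h3] at hc1
  have h4 : n / 2 = 8 * (k * k) := by
    rw [hn]
    have : 4 * k * (4 * k) = 2 * (8 * (k * k)) := by ring
    rw [this]; simp
  rw [h4] at h2
  push_cast at h2
  have hk1' : (1 : ℝ) ≤ k := by exact_mod_cast hk1
  have h5 : C * (4 * k) ≤ k * (4 * k) := by nlinarith
  nlinarith

end Pool.Agent.Results.MP_00e3a8_gt.Main
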